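import Pool.Agent.R689.CondFlat

/-!
# A conditionally flat localization functor on groups that is not an epireflection

The functor `G ↦ G_ab ⊗ ℚ`.
-/

set_option autoImplicit false

universe u

namespace Pool.Agent.Results.MP_52d248_al.RationalAbelianization

open CategoryTheory TensorProduct Pool.Agent.R689.CF

/-- the rational vector space `ℚ ⊗ G_ab` -/
abbrev QA (G : Type u) [Group G] : Type u := ℚ ⊗[ℤ] Additive (Abelianization G)

/-- the linear map `G_ab → H_ab` -/
def abMap {G H : Type u} [Group G] [Group H] (f : G →* H) :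
    Additive (Abelianization G) →ₗ[ℤ] Additive (Abelianization H) :=
  (MonoidHom.toAdditive (Abelianization.map f)).toIntLinearMap

/-- the linear map `ℚ ⊗ G_ab → ℚ ⊗ H_ab` -/
noncomputable def qMap {G H : Type u} [Group G] [Group H] (f : G →* H) : QA G →ₗ[ℚ] QA H :=
  (abMap f).baseChange ℚ

/-- the class of an element -/
def cl {G : Type u} [Group G] (g : G) : Additive (Abelianization G) :=
  Additive.ofMul (Abelianization.of g)

lemma cl_mul {G : Type u} [Group G] (g h : G) : cl (g * h) = cl g + cl h := by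
  rw [cl, map_mul]; rfl

lemma cl_surjective {G : Type u} [Group G] (x : Additive (Abelianization G)) :
    ∃ g, cl g = x := by
  obtain ⟨g, hg⟩ := QuotientGroup.mk_surjective (Additive.toMul x)
  exact ⟨g, congrArg Additive.ofMul hg⟩

lemma abMap_cl {G H : Type u} [Group G] [Group H] (f : G →* H) (g : G) :
    abMap f (cl g) = cl (f g) := rfl

lemma qMap_tmul {G H : Type u} [Group G] [Group H] (f : G →* H) (q : ℚ) (g : G) :
    qMap f (q ⊗ₜ cl g) = q ⊗ₜ cl (f g) := by
  rw [qMap, LinearMap.baseChange_tmul, abMap_cl]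

lemma q_ext {G : Type u} [Group G] {M : Type*} [AddCommGroup M] [Module ℚ M]
    {f g : QA G →ₗ[ℚ] M} (h : ∀ (q : ℚ) (x : G), f (q ⊗ₜ cl x) = g (q ⊗ₜ cl x)) : f = g := by
  refine LinearMap.ext fun v => ?_
  induction v using TensorProduct.induction_on with
  | zero => rw [map_zero, map_zero]
  | tmul q x =>
    obtain ⟨x, rfl⟩ := cl_surjective x
    exact h q x
  | add v w hv hw => rw [map_add, map_add, hv, hw]

/-- the unit -/
noncomputable def unit (G : Type u) [Group G] : G →* Multiplicative (QA G) where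
  toFun g := Multiplicative.ofAdd ((1 : ℚ) ⊗ₜ cl g)
  map_one' := by
    have : cl (1 : G) = 0 := by rw [cl, map_one]; rfl
    rw [this, TensorProduct.tmul_zero]; rfl
  map_mul' g h := by
    rw [cl_mul, TensorProduct.tmul_add]; rfl

/-- the functor `G ↦ ℚ ⊗ G_ab` -/
noncomputable def L : GrpCat.{u} ⥤ GrpCat.{u} where
  obj G := GrpCat.of (Multiplicative (QA G))
  map f := GrpCat.ofHom (AddMonoidHom.toMultiplicative (qMap f.hom).toAddMonoidHom)
  map_id G := by
    apply GrpCat.hom_ext
    have h : qMap (MonoidHom.id G) = LinearMap.id := q_ext fun q x => by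
      rw [qMap_tmul]; rfl
    change AddMonoidHom.toMultiplicative (qMap (MonoidHom.id G)).toAddMonoidHom = _
    rw [h]
    rfl
  map_comp f g := by
    apply GrpCat.hom_ext
    have h : qMap (g.hom.comp f.hom) = (qMap g.hom).comp (qMap f.hom) := q_ext fun q x => by
      rw [qMap_tmul, LinearMap.comp_apply, qMap_tmul, qMap_tmul]; rfl
    change AddMonoidHom.toMultiplicative (qMap (g.hom.comp f.hom)).toAddMonoidHom = _
    rw [h]
    rfl

/-- the natural transformation `G → ℚ ⊗ G_ab` -/
noncomputable def η : 𝟭 GrpCat.{u} ⟶ L.{u} where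
  app G := GrpCat.ofHom (unit G)
  naturality G H f := by
    apply GrpCat.hom_ext
    ext x
    change Multiplicative.ofAdd ((1 : ℚ) ⊗ₜ cl (f.hom x)) =
      Multiplicative.ofAdd (qMap f.hom ((1 : ℚ) ⊗ₜ cl x))
    rw [qMap_tmul]

lemma η_apply (G : GrpCat.{u}) (g : G) :
    (η.app G).hom g = Multiplicative.ofAdd ((1 : ℚ) ⊗ₜ cl g) := rfl

lemma L_map_apply {G H : GrpCat.{u}} (f : G ⟶ H) (x : QA G) :
    (L.map f).hom (Multiplicative.ofAdd x) = Multiplicative.ofAdd (qMap f.hom x) := rfl

/-- the class map of the vector space `V = ℚ ⊗ G_ab`, as an additive map -/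
noncomputable def clV (G : Type u) [Group G] :
    QA G →+ QA (Multiplicative (QA G)) where
  toFun v := (1 : ℚ) ⊗ₜ cl (Multiplicative.ofAdd v)
  map_zero' := by
    have : cl (Multiplicative.ofAdd (0 : QA G)) = 0 := by rw [cl, ofAdd_zero, map_one]; rfl
    rw [this, TensorProduct.tmul_zero]
  map_add' v w := by
    rw [ofAdd_add, cl_mul, TensorProduct.tmul_add]

/-- an additive map of rational vector spaces is rational -/
lemma clV_smul (G : Type u) [Group G] (q : ℚ) (v : QA G) : clV G (q • v) = q • clV G v :=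
  map_rat_smul (clV G) q v

lemma tmul_cl (G : Type u) [Group G] (q : ℚ) (v : QA G) :
    (q ⊗ₜ cl (Multiplicative.ofAdd v) : QA (Multiplicative (QA G))) =
      (1 : ℚ) ⊗ₜ cl (Multiplicative.ofAdd (q • v)) := by
  have h := clV_smul G q v
  change (1 : ℚ) ⊗ₜ cl (Multiplicative.ofAdd (q • v)) =
    q • ((1 : ℚ) ⊗ₜ[ℤ] cl (Multiplicative.ofAdd v)) at h
  rw [h, TensorProduct.smul_tmul', smul_eq_mul, mul_one]

/-- the retraction `ℚ ⊗ V_ab → V` -/
noncomputable def retr (G : Type u) [Group G] :
    QA (Multiplicative (QA G)) →ₗ[ℚ] QA G :=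
  LinearMap.liftBaseChange ℚ
    (AddMonoidHom.toIntLinearMap (MonoidHom.toAdditiveLeft
      (Abelianization.lift (MonoidHom.id (Multiplicative (QA G))))))

lemma retr_tmul (G : Type u) [Group G] (q : ℚ) (v : QA G) :
    retr G (q ⊗ₜ cl (Multiplicative.ofAdd v)) = q • v := by
  rw [retr, LinearMap.liftBaseChange_tmul]
  rfl

lemma isLocalizationFunctor : IsLocalizationFunctor L.{u} η := by
  intro G
  constructor
  · apply GrpCat.hom_ext
    ext x
    change Multiplicative.ofAdd (qMap (unit G) (Multiplicative.toAdd x)) =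
      Multiplicative.ofAdd ((1 : ℚ) ⊗ₜ cl x)
    have h : qMap (unit G) = (clV G).toRatLinearMap := q_ext fun q g => by
      rw [qMap_tmul]
      change (q ⊗ₜ cl (Multiplicative.ofAdd ((1 : ℚ) ⊗ₜ cl g)) : QA (Multiplicative (QA G))) =
        (1 : ℚ) ⊗ₜ cl (Multiplicative.ofAdd (q ⊗ₜ cl g))
      rw [tmul_cl, TensorProduct.smul_tmul', smul_eq_mul, mul_one]
    rw [h]
    rfl
  · rw [ConcreteCategory.isIso_iff_bijective]
    constructor
    · intro v w hvw
      have h1 : retr G ((1 : ℚ) ⊗ₜ cl v) = retr G ((1 : ℚ) ⊗ₜ cl w) :=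
        congrArg (fun x => retr G (Multiplicative.toAdd x)) hvw
      have key : ∀ v : QA G, retr G ((1 : ℚ) ⊗ₜ cl (Multiplicative.ofAdd v)) = v := fun v => by
        rw [retr_tmul, one_smul]
      exact congrArg Multiplicative.ofAdd ((key (Multiplicative.toAdd v)).symm.trans
        (h1.trans (key (Multiplicative.toAdd w))))
    · intro y
      obtain ⟨v, hv⟩ : ∃ v, clV G v = Multiplicative.toAdd y := by
        induction (Multiplicative.toAdd y) using TensorProduct.induction_on with
        | zero => exact ⟨0, map_zero _⟩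
        | tmul q x =>
          obtain ⟨x, rfl⟩ := cl_surjective x
          refine ⟨q • (Multiplicative.toAdd x : QA G), ?_⟩
          exact (tmul_cl G q (Multiplicative.toAdd x)).symm
        | add a b ha hb =>
          obtain ⟨v, hv⟩ := ha
          obtain ⟨w, hw⟩ := hb
          exact ⟨v + w, (map_add (clV G) v w).trans (congrArg₂ (· + ·) hv hw)⟩
      exact ⟨Multiplicative.ofAdd v, congrArg Multiplicative.ofAdd hv⟩

/-- the homomorphism `ℚ ⊗ ℤ_ab → ℚ` -/
noncomputable def toQ : QA (Multiplicative (ULift.{u} ℤ)) →ₗ[ℚ] ℚ :=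
  LinearMap.liftBaseChange ℚ
    (AddMonoidHom.toIntLinearMap (MonoidHom.toAdditiveLeft
      (Abelianization.lift (AddMonoidHom.toMultiplicative
        ((Int.castAddHom ℚ).comp (AddEquiv.ulift.toAddMonoidHom : ULift.{u} ℤ →+ ℤ))))))

lemma toQ_tmul (q : ℚ) (m : ℤ) :
    toQ.{u} (q ⊗ₜ cl (Multiplicative.ofAdd (ULift.up m))) = q * m := by
  rw [toQ, LinearMap.liftBaseChange_tmul]
  rfl

lemma not_isEpireflection : ¬ IsEpireflection L.{u} η := by
  intro h
  obtain ⟨g, hg⟩ := h (GrpCat.of (Multiplicative (ULift.{u} ℤ)))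
    (Multiplicative.ofAdd ((1 / 2 : ℚ) ⊗ₜ cl (Multiplicative.ofAdd (ULift.up 1))))
  have h1 : toQ.{u} ((1 : ℚ) ⊗ₜ cl (Multiplicative.ofAdd (ULift.up (Multiplicative.toAdd g).down)))
      = toQ.{u} ((1 / 2 : ℚ) ⊗ₜ cl (Multiplicative.ofAdd (ULift.up 1))) :=
    congrArg (fun x => toQ.{u} (Multiplicative.toAdd x)) hg
  rw [toQ_tmul, toQ_tmul, one_mul, Int.cast_one, mul_one] at h1
  have h2 : (2 * (Multiplicative.toAdd g).down : ℚ) = 1 := by rw [h1]; norm_num
  have h3 : 2 * (Multiplicative.toAdd g).down = 1 := by exact_mod_cast h2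
  omega

/-- right exactness of the abelianization -/
lemma ab_exact {N E G : GrpCat.{u}} {i : N ⟶ E} {p : E ⟶ G} (h : ShortExact i p) :
    Function.Exact (abMap i.hom) (abMap p.hom) ∧ Function.Surjective (abMap p.hom) := by
  constructor
  · intro x
    obtain ⟨e, rfl⟩ := cl_surjective x
    rw [abMap_cl]
    constructor
    · intro h1
      have h2 : p.hom e ∈ commutator G := by
        have h3 : Abelianization.of (p.hom e) = 1 := congrArg Additive.toMul h1
        rwa [← MonoidHom.mem_ker, Abelianization.ker_of] at h3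
      have h4 : commutator G = (commutator E).map p.hom := by
        rw [commutator_def, commutator_def, Subgroup.map_commutator,
          Subgroup.map_top_of_surjective _ h.2.1]
      rw [h4] at h2
      obtain ⟨c, hc, hce⟩ := h2
      have h5 : e * c⁻¹ ∈ p.hom.ker := by
        rw [MonoidHom.mem_ker, map_mul, map_inv, hce, mul_inv_cancel]
      rw [← h.2.2] at h5
      obtain ⟨n, hn⟩ := h5
      refine ⟨cl n, ?_⟩
      rw [abMap_cl, hn, cl_mul]
      have h6 : cl c⁻¹ = 0 := by
        have : Abelianization.of c⁻¹ = 1 := by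
          rw [← MonoidHom.mem_ker, Abelianization.ker_of]
          exact Subgroup.inv_mem _ hc
        rw [cl, this]; rfl
      rw [h6, add_zero]
    · rintro ⟨y, hy⟩
      obtain ⟨n, rfl⟩ := cl_surjective y
      have h7 : i.hom n ∈ p.hom.ker := by rw [← h.2.2]; exact ⟨n, rfl⟩
      rw [MonoidHom.mem_ker] at h7
      rw [← abMap_cl, ← hy, abMap_cl, abMap_cl, h7, cl, map_one]; rfl
  · intro y
    obtain ⟨g, rfl⟩ := cl_surjective y
    obtain ⟨e, rfl⟩ := h.2.1 g
    exact ⟨cl e, abMap_cl _ _⟩

/-- right exactness of `L` -/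
lemma L_exact {N E G : GrpCat.{u}} {i : N ⟶ E} {p : E ⟶ G} (h : ShortExact i p) :
    Function.Surjective (L.map p).hom ∧ (L.map i).hom.range = (L.map p).hom.ker := by
  obtain ⟨h1, h2⟩ := ab_exact h
  have h3 := lTensor_exact ℚ h1 h2
  constructor
  · intro y
    obtain ⟨x, hx⟩ := LinearMap.lTensor_surjective ℚ h2 (Multiplicative.toAdd y)
    exact ⟨Multiplicative.ofAdd x, congrArg Multiplicative.ofAdd hx⟩
  · ext x
    constructor
    · rintro ⟨y, rfl⟩
      have := (h3 (LinearMap.lTensor ℚ (abMap i.hom) (Multiplicative.toAdd y))).2 ⟨_, rfl⟩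
      exact congrArg Multiplicative.ofAdd this
    · intro hx
      obtain ⟨y, hy⟩ := (h3 (Multiplicative.toAdd x)).1 (congrArg Multiplicative.toAdd hx)
      exact ⟨Multiplicative.ofAdd y, congrArg Multiplicative.ofAdd hy⟩

lemma conditionallyFlat : ConditionallyFlat L.{u} := by
  intro N E G i p h hflat H f
  obtain ⟨h1, h2⟩ := L_exact (pb_shortExact i p h f)
  refine ⟨?_, h1, h2⟩
  have h3 : pbIncl i p h f ≫ pbFst p f = i := rfl
  have h4 : L.map (pbIncl i p h f) ≫ L.map (pbFst p f) = L.map i := by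
    rw [← L.map_comp, h3]
  have h5 := hflat.1
  rw [← h4] at h5
  exact Function.Injective.of_comp h5

/-- There are a localization functor `L` on the category of groups, with unit `η : Id → L`, that is
conditionally flat but not an epireflection. -/
theorem result : ∃ (L : GrpCat.{u} ⥤ GrpCat.{u}) (η : 𝟭 GrpCat.{u} ⟶ L),
    IsLocalizationFunctor L η ∧ ConditionallyFlat L ∧ ¬ IsEpireflection L η :=
  ⟨L, η, isLocalizationFunctor, conditionallyFlat, not_isEpireflection⟩

end Pool.Agent.Results.MP_52d248_al.RationalAbelianization
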